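import Pool.Agent.helper90.EP.BridgeB

/-!
# Descent of abelian units to the completed group algebra: pro-`p` quotients with solvable Frattini
embedding problems
-/

set_option autoImplicit false

namespace Pool.Agent.helper90.EP.FreeCoverOld

open Pool.Agent.helper90.EP

theorem result (p : ℕ) [Fact p.Prime] (hp2 : p ≠ 2)
    (Γ Q : Type*) [Group Γ] [TopologicalSpace Γ] [IsTopologicalGroup Γ] [CompactSpace Γ]
    [Group Q] [TopologicalSpace Q] [IsTopologicalGroup Q] [CompactSpace Q]
    (hQ : ∀ N : OpenNormalSubgroup Q, IsPGroup p (Q ⧸ N.toSubgroup))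
    (φ : Γ →* Q) (hφ : Continuous φ) (hs : Function.Surjective φ)
    (hF : FrattiniSolvable p φ) :
    Descent ℤ_[p] p φ :=
  descent_of φ fun _ hx =>
    Pool.Agent.helper90.EI.lambda_F hp2 hQ φ hφ hs (fratSolv_of hF) hx

end Pool.Agent.helper90.EP.FreeCoverOld
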